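import Pool.Agent.Helper40.JZ.Stmts

/-!
Row CLS (MP_7a8f48_an): the sum over the primes of a block for one fixed prime `q`.
-/

open Finset Filter Topology

namespace Pool.Agent.Helper40.JZ

open Pool.Agent.Helper40.DZ (SK)

/-- every element with first coordinate `≠ 0` is a multiple of a standard generator -/
theorem cls_gen {q : ℕ} (hq : q.Prime) {X : Type} [AddCommGroup X] (hX : ∀ x : X, q • x = 0)
    (j : ℤ) (x : X) (hj : j ≠ 0) : ∃ (e : ℕ) (w : X) (n : ℤ),
      ((j, x) : ℤ × X) = n • (((q : ℤ) ^ e, w) : ℤ × X) := by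
  have hp : Prime (q : ℤ) := Nat.prime_iff_prime_int.mp hq
  have hfin : FiniteMultiplicity (q : ℤ) j := by
    rw [Int.finiteMultiplicity_iff]
    refine ⟨?_, hj⟩
    rw [Int.natAbs_natCast]
    exact hq.one_lt.ne'
  obtain ⟨j1, h1, h2⟩ := hfin.exists_eq_pow_mul_and_not_dvd
  obtain ⟨a, b, hab⟩ := (hp.coprime_iff_not_dvd).mpr h2
  refine ⟨multiplicity (q : ℤ) j, b • x, j1, ?_⟩
  rw [Prod.smul_mk]
  refine Prod.ext ?_ ?_
  · show j = j1 • (q : ℤ) ^ multiplicity (q : ℤ) j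
    rw [smul_eq_mul, mul_comm]
    exact h1
  · show x = j1 • b • x
    have h3 : (q : ℤ) • x = 0 := by
      rw [natCast_zsmul]
      exact hX x
    rw [smul_smul]
    have h4 : j1 * b = 1 - a * q := by linarith
    rw [h4, sub_smul, one_smul, mul_smul, h3, smul_zero, sub_zero]

/-- two different standard generators have only canonical common multiples -/
theorem cls_uniq {q : ℕ} (hq : q.Prime) {X : Type} [AddCommGroup X] (hX : ∀ x : X, q • x = 0)
    (e f : ℕ) (w w' : X) (m n : ℤ)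
    (h : m • (((q : ℤ) ^ e, w) : ℤ × X) = n • (((q : ℤ) ^ f, w') : ℤ × X))
    (hc : ∀ k : ℤ, m • (((q : ℤ) ^ e, w) : ℤ × X) ≠ k • (((q : ℤ), 0) : ℤ × X)) :
    (((q : ℤ) ^ e, w) : ℤ × X) = ((q : ℤ) ^ f, w') := by
  have hp : Prime (q : ℤ) := Nat.prime_iff_prime_int.mp hq
  have hq0 : (q : ℤ) ≠ 0 := hp.ne_zero
  have hX' : ∀ x : X, (q : ℤ) • x = 0 := fun x => by
    rw [natCast_zsmul]
    exact hX x
  have key : ∀ (m : ℤ) (e : ℕ) (w : X), (q : ℤ) ∣ m →
      ∃ k : ℤ, m • (((q : ℤ) ^ e, w) : ℤ × X) = k • (((q : ℤ), 0) : ℤ × X) := by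
    rintro m e w ⟨m', rfl⟩
    refine ⟨m' * (q : ℤ) ^ e, ?_⟩
    rw [Prod.smul_mk, Prod.smul_mk]
    refine Prod.ext ?_ ?_
    · show (q * m') • (q : ℤ) ^ e = (m' * (q : ℤ) ^ e) • (q : ℤ)
      rw [smul_eq_mul, smul_eq_mul]
      ring
    · show ((q : ℤ) * m') • w = (m' * (q : ℤ) ^ e) • (0 : X)
      rw [mul_comm, mul_smul, hX', smul_zero, smul_zero]
  have hm : ¬ (q : ℤ) ∣ m := fun hd => by
    obtain ⟨k, hk⟩ := key m e w hd
    exact hc k hk
  have hn : ¬ (q : ℤ) ∣ n := fun hd => by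
    obtain ⟨k, hk⟩ := key n f w' hd
    exact hc k (h.trans hk)
  rw [Prod.smul_mk, Prod.smul_mk] at h
  have h1 : m * (q : ℤ) ^ e = n * (q : ℤ) ^ f := congrArg Prod.fst h
  have h2 : m • w = n • w' := congrArg Prod.snd h
  have hpw : ∀ (a b : ℤ) (i d : ℕ), a * (q : ℤ) ^ i = b * (q : ℤ) ^ (i + (d + 1)) →
      (q : ℤ) ∣ a := by
    intro a b i d hh
    have : a = b * (q : ℤ) ^ (d + 1) := by
      have h3 : (q : ℤ) ^ i ≠ 0 := pow_ne_zero _ hq0
      refine mul_right_cancel₀ h3 ?_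
      rw [hh, pow_add]
      ring
    rw [this, pow_succ]
    exact ⟨b * (q : ℤ) ^ d, by ring⟩
  have hef : e = f := by
    rcases lt_trichotomy e f with hlt | heq | hgt
    · obtain ⟨d, rfl⟩ : ∃ d, f = e + (d + 1) := ⟨f - e - 1, by omega⟩
      exact absurd (hpw m n e d h1) hm
    · exact heq
    · obtain ⟨d, rfl⟩ : ∃ d, e = f + (d + 1) := ⟨e - f - 1, by omega⟩
      exact absurd (hpw n m f d h1.symm) hn
  subst hef
  have hmn : m = n := mul_right_cancel₀ (pow_ne_zero _ hq0) h1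
  subst hmn
  obtain ⟨a, b, hab⟩ := (hp.coprime_iff_not_dvd).mpr hm
  have hw : w - w' = 0 := by
    have h3 : m • (w - w') = 0 := by rw [smul_sub, h2, sub_self]
    calc w - w' = (a * (q : ℤ) + b * m) • (w - w') := by rw [hab, one_smul]
      _ = 0 := by rw [add_smul, mul_smul, mul_smul, hX', h3, smul_zero, smul_zero, add_zero]
  rw [sub_eq_zero.mp hw]

/-- multiples of an element with first coordinate `≠ 0` -/
theorem cls_inj {X : Type} [AddCommGroup X] (M : ℤ × X) (hM : M.1 ≠ 0) :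
    Function.Injective (fun m : ℤ => m • M) := by
  intro m n h
  have h1 : m * M.1 = n * M.1 := congrArg Prod.fst h
  exact mul_right_cancel₀ hM h1

theorem cls_tsum {X : Type} [AddCommGroup X] (f : ℤ × X → ℝ) (M : ℤ × X) (hM : M.1 ≠ 0) :
    ∑' m : ℤ, f (m • M) = ∑' u, (Set.range (fun m : ℤ => m • M)).indicator f u := by
  rw [← _root_.tsum_subtype, tsum_range f (cls_inj M hM)]

/-- rainbow groups at one pair `(k, k')` -/
theorem cls_pt {q : ℕ} (hq : q.Prime) {X : Type} [AddCommGroup X] (hX : ∀ x : X, q • x = 0)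
    (f : ℤ × X → ℝ) (C : ℝ) (hf : ∀ u, 0 ≤ f u) (hs : Summable f) (hC : ∑' u, f u ≤ C)
    (G : Finset ℕ) (M : ℕ → ℤ × X) (hM : ∀ p ∈ G, ∃ (e : ℕ) (w : X), M p = ((q : ℤ) ^ e, w))
    (hinj : ∀ p ∈ G, ∀ p' ∈ G, M p = M p' → p = p') :
    ∑ p ∈ G, ∑' m : ℤ, f (m • M p) ≤
      C + G.card * ∑' m : ℤ, f (m • (((q : ℤ), 0) : ℤ × X)) := by
  classical
  have hp : Prime (q : ℤ) := Nat.prime_iff_prime_int.mp hq
  have hq0 : (q : ℤ) ≠ 0 := hp.ne_zero
  have hM0 : ∀ p ∈ G, (M p).1 ≠ 0 := by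
    intro p hp
    obtain ⟨e, w, h⟩ := hM p hp
    rw [h]
    exact pow_ne_zero _ hq0
  have e1 : ∑ p ∈ G, ∑' m : ℤ, f (m • M p) =
      ∑' u, ∑ p ∈ G, (Set.range (fun m : ℤ => m • M p)).indicator f u := by
    rw [Summable.tsum_finsetSum (fun p _ => hs.indicator _)]
    exact Finset.sum_congr rfl (fun p hp => cls_tsum f (M p) (hM0 p hp))
  rw [e1, cls_tsum f (((q : ℤ), 0) : ℤ × X) hq0, ← tsum_mul_left]
  refine le_trans ?_ (add_le_add_left hC _)
  rw [← Summable.tsum_add hs ((hs.indicator _).mul_left _)]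
  refine Summable.tsum_le_tsum (fun u => ?_) (summable_sum (fun p _ => hs.indicator _))
    (hs.add ((hs.indicator _).mul_left _))
  by_cases hu : u ∈ Set.range (fun m : ℤ => m • (((q : ℤ), 0) : ℤ × X))
  · rw [Set.indicator_of_mem hu]
    have h1 : ∑ p ∈ G, (Set.range (fun m : ℤ => m • M p)).indicator f u ≤ ∑ _p ∈ G, f u :=
      Finset.sum_le_sum (fun p _ => Set.indicator_le_self' (fun _ _ => hf _) u)
    rw [Finset.sum_const, nsmul_eq_mul] at h1
    have := hf u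
    linarith
  · rw [Set.indicator_of_notMem hu, mul_zero, add_zero]
    by_cases hG : ∃ p ∈ G, u ∈ Set.range (fun m : ℤ => m • M p)
    · obtain ⟨p, hpG, hup⟩ := hG
      rw [Finset.sum_eq_single p]
      · exact Set.indicator_le_self' (fun _ _ => hf _) u
      · intro p' hp' hne
        refine Set.indicator_of_notMem (fun hup' => hne ?_) _
        obtain ⟨m, hm⟩ := hup
        obtain ⟨n, hn⟩ := hup'
        obtain ⟨e, w, h1⟩ := hM p hpG
        obtain ⟨e', w', h1'⟩ := hM p' hp'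
        have hm' : m • M p = u := hm
        have hn' : n • M p' = u := hn
        refine hinj p' hp' p hpG ?_
        rw [h1, h1']
        rw [h1] at hm'
        rw [h1'] at hn'
        refine cls_uniq hq hX e' e w' w n m (hn'.trans hm'.symm) (fun k hk => hu ⟨k, ?_⟩)
        rw [hn'] at hk
        exact hk.symm
      · intro h
        exact absurd hpG h
    · push Not at hG
      rw [Finset.sum_eq_zero (fun p hp => Set.indicator_of_notMem (hG p hp) _)]
      exact hf u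

/-- linearity of the means -/
theorem cls_lim (hL : ST_LMF) (G : Finset ℕ) (N : ℕ → ℕ → ℕ → ℝ) (Nc : ℕ → ℕ → ℝ) (a b : ℝ)
    (hN : ∀ p ∈ G, SK (N p)) (hNc : SK Nc)
    (hle : ∀ k k', ∑ p ∈ G, N p k k' ≤ a + b * Nc k k') (Q : ℕ) (hQ : 1 ≤ Q) :
    ∑ p ∈ G, LM (N p) Q ≤ a + b * LM Nc Q := by
  have h1 : Tendsto (fun H : ℕ => ∑ p ∈ G,
      (∑ h ∈ range H, ∑ h' ∈ range H, N p (Q * h) (Q * h')) / (H : ℝ) ^ 2) atTop
      (𝓝 (∑ p ∈ G, LM (N p) Q)) :=
    tendsto_finsetSum _ (fun p hp => (hL (N p) (hN p hp)).1 Q hQ)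
  have h2 : Tendsto (fun H : ℕ => a + b * ((∑ h ∈ range H, ∑ h' ∈ range H,
      Nc (Q * h) (Q * h')) / (H : ℝ) ^ 2)) atTop (𝓝 (a + b * LM Nc Q)) :=
    (((hL Nc hNc).1 Q hQ).const_mul b).const_add a
  refine le_of_tendsto_of_tendsto h1 h2 ?_
  filter_upwards [eventually_ge_atTop 1] with H hH
  have hH0 : (0 : ℝ) < (H : ℝ) ^ 2 := by
    have : (1 : ℝ) ≤ (H : ℝ) := by exact_mod_cast hH
    positivity
  rw [← Finset.sum_div, div_le_iff₀ hH0]
  have e1 : ∑ p ∈ G, ∑ h ∈ range H, ∑ h' ∈ range H, N p (Q * h) (Q * h') =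
      ∑ h ∈ range H, ∑ h' ∈ range H, ∑ p ∈ G, N p (Q * h) (Q * h') := by
    rw [Finset.sum_comm]
    refine Finset.sum_congr rfl (fun h _ => ?_)
    rw [Finset.sum_comm]
  have e2 : ∑ h ∈ range H, ∑ h' ∈ range H, (a + b * Nc (Q * h) (Q * h')) =
      a * (H : ℝ) ^ 2 + b * ∑ h ∈ range H, ∑ h' ∈ range H, Nc (Q * h) (Q * h') := by
    simp only [Finset.sum_add_distrib, Finset.sum_const, card_range, nsmul_eq_mul,
      Finset.mul_sum]
    ring
  rw [e1]
  refine (Finset.sum_le_sum (fun h _ => Finset.sum_le_sum (fun h' _ => hle (Q * h) (Q * h')))).trans ?_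
  rw [e2]
  have e3 : (a + b * ((∑ h ∈ range H, ∑ h' ∈ range H, Nc (Q * h) (Q * h')) / (H : ℝ) ^ 2)) *
      (H : ℝ) ^ 2 = a * (H : ℝ) ^ 2 + b * ∑ h ∈ range H, ∑ h' ∈ range H, Nc (Q * h) (Q * h') := by
    field_simp
  rw [e3]

/-- **Row CLS.** -/
theorem st_CLS (hL : ST_LMF) (hR : ST_RBW) : ST_CLS := by
  classical
  intro q X _ Φ N₀ C η K P τ hq hX hK hC hη hΦ hS hSC hN₀ hN hT hP hτ
  have hp : Prime (q : ℤ) := Nat.prime_iff_prime_int.mp hq
  have hq0 : (q : ℤ) ≠ 0 := hp.ne_zero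
  have hM : ∀ t : Option (ℤ × X), ∃ M : ℤ × X, (∃ (e : ℕ) (w : X), M = ((q : ℤ) ^ e, w)) ∧
      ((∀ s, t = some s → s.1 ≠ 0) → ∀ s, t = some s → ∃ n : ℤ, s = n • M) := by
    intro t
    rcases t with _ | ⟨j, x⟩
    · exact ⟨((q : ℤ) ^ 0, 0), ⟨0, 0, rfl⟩, fun _ s hs => by simp at hs⟩
    · by_cases hj : j = 0
      · exact ⟨((q : ℤ) ^ 0, 0), ⟨0, 0, rfl⟩, fun h => absurd hj (h (j, x) rfl)⟩
      · obtain ⟨e, w, n, h⟩ := cls_gen hq hX j x hj
        refine ⟨((q : ℤ) ^ e, w), ⟨e, w, rfl⟩, fun _ s hs => ⟨n, ?_⟩⟩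
        rw [← Option.some.inj hs]
        exact h
  choose M hM1 hM2 using hM
  have hM0 : ∀ t, (M t).1 ≠ 0 := by
    intro t
    obtain ⟨e, w, h⟩ := hM1 t
    rw [h]
    exact pow_ne_zero _ hq0
  have hsome : ∀ u : ℤ × X, u.1 ≠ 0 → SK (NX Φ (some u)) ∧
      LM (NX Φ (some u)) 1 ≤ LM N₀ 1 + η := fun u hu =>
    hT (some u) (fun s hs => by rw [← Option.some.inj hs]; exact hu)
  have h00 : ∀ u : ℤ × X, u.1 ≠ 0 → NX Φ (some u) 0 0 ≤ C := by
    intro u hu
    refine le_trans ?_ (hSC 0 0)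
    exact tsum_comp_le_tsum_of_inj (hS 0 0) (fun v => hΦ 0 0 v) (cls_inj u hu)
  -- the types are replaced by their generators
  have hle : ∀ p ∈ P, ∀ k k', NX Φ (τ p) k k' ≤ NX Φ (some (M (τ p))) k k' := by
    intro p hpP k k'
    have hsum : Summable (fun m : ℤ => Φ k k' (m • M (τ p))) :=
      (hS k k').comp_injective (cls_inj _ (hM0 (τ p)))
    rcases hτp : τ p with _ | s
    · show Φ k k' 0 ≤ ∑' m : ℤ, Φ k k' (m • M none)
      rw [hτp] at hsum
      have := hsum.le_tsum 0 (fun m _ => hΦ k k' _)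
      rwa [zero_smul] at this
    · have hs0 : s.1 ≠ 0 := hτ p hpP s hτp
      obtain ⟨n, hn⟩ := hM2 (some s) (fun s' hs' => by rw [← Option.some.inj hs']; exact hs0) s rfl
      have hn0 : n ≠ 0 := by
        rintro rfl
        rw [zero_smul] at hn
        rw [hn] at hs0
        exact hs0 rfl
      rw [hτp] at hsum
      show ∑' m : ℤ, Φ k k' (m • s) ≤ ∑' m : ℤ, Φ k k' (m • M (some s))
      have e1 : (fun m : ℤ => Φ k k' (m • s)) =
          (fun m : ℤ => Φ k k' (m • M (some s))) ∘ (fun m : ℤ => m * n) := by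
        funext m
        show Φ k k' (m • s) = Φ k k' ((m * n) • M (some s))
        rw [mul_smul, ← hn]
      rw [e1]
      exact tsum_comp_le_tsum_of_inj hsum (fun m => hΦ k k' _)
        (fun a b hab => mul_right_cancel₀ hn0 hab)
  have hLM : ∀ p ∈ P, LM (NX Φ (τ p)) p ≤ LM (NX Φ (some (M (τ p)))) p := fun p hpP =>
    (hL _ (hT (τ p) (hτ p hpP)).1).2.2.2.2 _ (hsome _ (hM0 _)).1 (hle p hpP) p (hP p hpP).one_lt.le
  have hN1 : ∀ p ∈ P, LM N₀ 1 ≤ LM N₀ p := fun p hpP => by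
    have := (hL N₀ hN₀).2.1 1 p le_rfl (hP p hpP).one_lt.le
    rwa [one_mul] at this
  obtain ⟨n, g, L, h1, h2, h3, h4, h5, B, h6, h7, h8⟩ := hR (ℤ × X) P (fun p => M (τ p)) K hK
  -- the decomposition of `P`
  have hdisj : ((range n : Finset ℕ) : Set ℕ).PairwiseDisjoint g := by
    intro i hi j hj hij
    exact h2 i (by simpa using hi) j (by simpa using hj) hij
  have hPe : P = (range n).biUnion g ∪ L := by
    ext p
    constructor
    · intro hpP
      by_cases hpL : p ∈ L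
      · exact Finset.mem_union_right _ hpL
      · obtain ⟨i, hi, hpi⟩ := h5 p hpP hpL
        exact Finset.mem_union_left _ (Finset.mem_biUnion.mpr ⟨i, Finset.mem_range.mpr hi, hpi⟩)
    · intro hp'
      rcases Finset.mem_union.mp hp' with h | h
      · obtain ⟨i, hi, hpi⟩ := Finset.mem_biUnion.mp h
        exact (h1 i (Finset.mem_range.mp hi)).1 hpi
      · exact h3 h
  have hdL : Disjoint ((range n).biUnion g) L := by
    rw [Finset.disjoint_biUnion_left]
    intro i hi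
    exact h4 i (Finset.mem_range.mp hi)
  have hcard : (P.card : ℝ) = n * K + L.card := by
    have : P.card = n * K + L.card := by
      conv_lhs => rw [hPe]
      rw [Finset.card_union_of_disjoint hdL, Finset.card_biUnion
        (fun i hi j hj hij => h2 i (Finset.mem_range.mp hi) j (Finset.mem_range.mp hj) hij),
        Finset.sum_congr rfl (fun i hi => (h1 i (Finset.mem_range.mp hi)).2.1),
        Finset.sum_const, card_range, smul_eq_mul]
    rw [this]
    push_cast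
    ring
  set c : ℤ × X := ((q : ℤ), 0) with hc
  have hc0 : c.1 ≠ 0 := hq0
  obtain ⟨hcS, hcL⟩ := hsome c hc0
  -- the groups
  have hQ1 : ∀ i < n, 2 ≤ ∏ p ∈ g i, p := by
    intro i hi
    obtain ⟨e1, e2, _⟩ := h1 i hi
    have hne : (g i).Nonempty := by
      rw [← Finset.card_pos, e2]
      omega
    obtain ⟨p, hpg⟩ := hne
    have hpos : 0 < ∏ p ∈ g i, p := Finset.prod_pos (fun p hp' => (hP p (e1 hp')).pos)
    exact (hP p (e1 hpg)).two_le.trans (Nat.le_of_dvd hpos (Finset.dvd_prod_of_mem _ hpg))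
  have hgrp : ∀ i < n, ∑ p ∈ g i, (LM (NX Φ (τ p)) p - LM N₀ p) ≤
      C + K * (LM (NX Φ (some c)) (∏ p ∈ g i, p) - LM (NX Φ (some c)) 1) + K * η := by
    intro i hi
    obtain ⟨e1, e2, e3⟩ := h1 i hi
    set Q : ℕ := ∏ p ∈ g i, p with hQ
    have hb1 : ∀ p ∈ g i, LM (NX Φ (τ p)) p - LM N₀ p ≤
        LM (NX Φ (some (M (τ p)))) Q - LM N₀ 1 := by
      intro p hpg
      have hpP := e1 hpg
      have k1 := hLM p hpP
      have k2 := hN1 p hpP
      have k3 : LM (NX Φ (some (M (τ p)))) p ≤ LM (NX Φ (some (M (τ p)))) Q := by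
        have := (hL _ (hsome _ (hM0 (τ p))).1).2.1 p (∏ p' ∈ (g i).erase p, p')
          (hP p hpP).one_lt.le
          (Finset.prod_pos (fun p' hp' => (hP p' (e1 (Finset.mem_of_mem_erase hp'))).pos))
        rwa [Finset.mul_prod_erase (g i) (fun p => p) hpg] at this
      linarith
    have hb2 : ∑ p ∈ g i, LM (NX Φ (some (M (τ p)))) Q ≤ C + K * LM (NX Φ (some c)) Q := by
      refine cls_lim hL (g i) (fun p => NX Φ (some (M (τ p)))) (NX Φ (some c)) C K
        (fun p _ => (hsome _ (hM0 _)).1) hcS (fun k k' => ?_) Q (by have := hQ1 i hi; omega)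
      have := cls_pt hq hX (Φ k k') C (hΦ k k') (hS k k') (hSC k k') (g i) (fun p => M (τ p))
        (fun p _ => hM1 _) e3
      rw [e2] at this
      exact this
    have hb3 := Finset.sum_le_sum hb1
    have hb5 : ∑ p ∈ g i, (LM (NX Φ (some (M (τ p)))) Q - LM N₀ 1) =
        ∑ p ∈ g i, LM (NX Φ (some (M (τ p)))) Q - K * LM N₀ 1 := by
      rw [Finset.sum_sub_distrib, Finset.sum_const, e2, nsmul_eq_mul]
    rw [hb5] at hb3
    have hK0 : (0 : ℝ) ≤ K := Nat.cast_nonneg _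
    have hb4 := mul_le_mul_of_nonneg_left hcL hK0
    have e5 : ∀ p ∈ g i, LM (NX Φ (τ p)) p - LM N₀ p ≤ LM (NX Φ (τ p)) p - LM N₀ p :=
      fun p _ => le_rfl
    linarith
  have hcop : ∀ i < n, ∀ j < n, i ≠ j → Nat.Coprime (∏ p ∈ g i, p) (∏ p ∈ g j, p) := by
    intro i hi j hj hij
    refine Nat.Coprime.prod_left (fun p hpi => Nat.Coprime.prod_right (fun p' hpj => ?_))
    rw [Nat.coprime_primes (hP p ((h1 i hi).1 hpi)) (hP p' ((h1 j hj).1 hpj))]
    rintro rfl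
    exact Finset.disjoint_left.mp (h2 i hi j hj hij) hpi hpj
  have hQinj : ∀ i ∈ range n, ∀ j ∈ range n, (∏ p ∈ g i, p) = (∏ p ∈ g j, p) → i = j := by
    intro i hi j hj hij
    by_contra hne
    have h := hcop i (Finset.mem_range.mp hi) j (Finset.mem_range.mp hj) hne
    rw [hij, Nat.coprime_self] at h
    have := hQ1 j (Finset.mem_range.mp hj)
    omega
  have hsumQ : ∑ i ∈ range n, (LM (NX Φ (some c)) (∏ p ∈ g i, p) - LM (NX Φ (some c)) 1) ≤ C := by
    have := (hL _ hcS).2.2.1 ((range n).image (fun i => ∏ p ∈ g i, p))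
      (fun Q hQ => by
        obtain ⟨i, hi, rfl⟩ := Finset.mem_image.mp hQ
        exact hQ1 i (Finset.mem_range.mp hi))
      (fun Q hQ Q' hQ' hne => by
        obtain ⟨i, hi, rfl⟩ := Finset.mem_image.mp hQ
        obtain ⟨j, hj, rfl⟩ := Finset.mem_image.mp hQ'
        exact hcop i (Finset.mem_range.mp hi) j (Finset.mem_range.mp hj)
          (fun h => hne (by rw [h])))
    rw [Finset.sum_image hQinj] at this
    exact this.trans (h00 c hc0)
  have hG : ∑ i ∈ range n, ∑ p ∈ g i, (LM (NX Φ (τ p)) p - LM N₀ p) ≤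
      n * C + K * C + n * (K * η) := by
    have hK0 : (0 : ℝ) ≤ K := Nat.cast_nonneg _
    have h := Finset.sum_le_sum (fun i (hi : i ∈ range n) => hgrp i (Finset.mem_range.mp hi))
    rw [Finset.sum_add_distrib, Finset.sum_add_distrib, ← Finset.mul_sum, Finset.sum_const,
      Finset.sum_const, card_range, nsmul_eq_mul, nsmul_eq_mul] at h
    have h' := mul_le_mul_of_nonneg_left hsumQ hK0
    linarith
  -- the rest
  have hrest : ∑ p ∈ L, (LM (NX Φ (τ p)) p - LM N₀ p) ≤ K * C + L.card * η := by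
    have hE : ∀ p ∈ L, LM (NX Φ (τ p)) p - LM N₀ p ≤
        (LM (NX Φ (some (M (τ p)))) p - LM (NX Φ (some (M (τ p)))) 1) + η := by
      intro p hpL
      have k1 := hLM p (h3 hpL)
      have k2 := hN1 p (h3 hpL)
      have k3 := (hsome _ (hM0 (τ p))).2
      linarith
    have hrep : ∀ p : ℕ, ∃ b : ℕ, p ∈ L → b ∈ B ∧ M (τ p) = M (τ b) := by
      intro p
      by_cases hpL : p ∈ L
      · obtain ⟨b, hb, hpb⟩ := h8 p hpL
        exact ⟨b, fun _ => ⟨hb, hpb⟩⟩
      · exact ⟨0, fun h => absurd h hpL⟩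
    choose b hb using hrep
    have hsum := Finset.sum_le_sum hE
    rw [Finset.sum_add_distrib, Finset.sum_const, nsmul_eq_mul] at hsum
    have hfib : ∑ p ∈ L, (LM (NX Φ (some (M (τ p)))) p - LM (NX Φ (some (M (τ p)))) 1) =
        ∑ y ∈ B, ∑ p ∈ L with b p = y,
          (LM (NX Φ (some (M (τ p)))) p - LM (NX Φ (some (M (τ p)))) 1) :=
      (Finset.sum_fiberwise_of_maps_to (fun p hpL => (hb p hpL).1) _).symm
    have hin : ∀ y ∈ B, ∑ p ∈ L with b p = y,
        (LM (NX Φ (some (M (τ p)))) p - LM (NX Φ (some (M (τ p)))) 1) ≤ C := by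
      intro y _
      have e1 : ∑ p ∈ L with b p = y,
          (LM (NX Φ (some (M (τ p)))) p - LM (NX Φ (some (M (τ p)))) 1) =
          ∑ p ∈ L with b p = y,
          (LM (NX Φ (some (M (τ y)))) p - LM (NX Φ (some (M (τ y)))) 1) := by
        refine Finset.sum_congr rfl (fun p hp' => ?_)
        obtain ⟨hpL, hpy⟩ := Finset.mem_filter.mp hp'
        rw [(hb p hpL).2, hpy]
      rw [e1]
      refine ((hL _ (hsome _ (hM0 (τ y))).1).2.2.1 _ (fun p hp' => ?_)
        (fun p hp' p' hp'' hne => ?_)).trans (h00 _ (hM0 _))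
      · exact (hP p (h3 (Finset.mem_filter.mp hp').1)).two_le
      · exact (Nat.coprime_primes (hP p (h3 (Finset.mem_filter.mp hp').1))
          (hP p' (h3 (Finset.mem_filter.mp hp'').1))).mpr hne
    have hB := Finset.sum_le_sum hin
    rw [Finset.sum_const, nsmul_eq_mul] at hB
    have hBK : (B.card : ℝ) * C ≤ K * C := by
      refine mul_le_mul_of_nonneg_right ?_ hC
      exact_mod_cast h7.le
    linarith
  -- the end
  have hKpos : (0 : ℝ) < K := by exact_mod_cast hK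
  have htot : ∑ p ∈ P, (LM (NX Φ (τ p)) p - LM N₀ p) =
      ∑ i ∈ range n, ∑ p ∈ g i, (LM (NX Φ (τ p)) p - LM N₀ p) +
      ∑ p ∈ L, (LM (NX Φ (τ p)) p - LM N₀ p) := by
    conv_lhs => rw [hPe]
    rw [Finset.sum_union hdL, Finset.sum_biUnion hdisj]
  have e9 : (P.card : ℝ) * (η + C / K) = n * (K * η) + L.card * η + n * C + L.card * (C / K) := by
    rw [hcard]
    field_simp
    ring
  have e10 : (0 : ℝ) ≤ L.card * (C / K) := by positivity
  have e11 : (0 : ℝ) ≤ K * C := by positivity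
  rw [htot, e9]
  linarith

end Pool.Agent.Helper40.JZ
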