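import Pool.Agent.Helper40.JZ.Stmts

/-!
Row RBW (MP_7a8f48_an): rainbow groups.
-/

open Finset

namespace Pool.Agent.Helper40.JZ

theorem st_RBW : ST_RBW := by
  classical
  intro α P cl K hK
  induction hn : P.card using Nat.strong_induction_on generalizing P with
  | _ N ih =>
    -- representatives of the classes
    have hrep : ∀ a : α, ∃ p : ℕ, a ∈ P.image cl → p ∈ P ∧ cl p = a := by
      intro a
      by_cases ha : a ∈ P.image cl
      · obtain ⟨p, hp, hpa⟩ := Finset.mem_image.mp ha
        exact ⟨p, fun _ => ⟨hp, hpa⟩⟩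
      · exact ⟨0, fun h => absurd h ha⟩
    choose rep hrep using hrep
    by_cases hR : K ≤ (P.image cl).card
    · obtain ⟨R, hRs, hRc⟩ := Finset.exists_subset_card_eq hR
      set g0 : Finset ℕ := R.image rep with hg0
      have hg0P : g0 ⊆ P := by
        intro p hp
        obtain ⟨a, ha, rfl⟩ := Finset.mem_image.mp hp
        exact (hrep a (hRs ha)).1
      have hinj : Set.InjOn rep (R : Set α) := by
        intro a ha b hb hab
        rw [← (hrep a (hRs ha)).2, hab, (hrep b (hRs hb)).2]
      have hg0c : g0.card = K := by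
        rw [hg0, Finset.card_image_of_injOn hinj, hRc]
      have hrb : ∀ p ∈ g0, ∀ p' ∈ g0, cl p = cl p' → p = p' := by
        intro p hp p' hp' h
        obtain ⟨a, ha, rfl⟩ := Finset.mem_image.mp hp
        obtain ⟨b, hb, rfl⟩ := Finset.mem_image.mp hp'
        rw [(hrep a (hRs ha)).2, (hrep b (hRs hb)).2] at h
        rw [h]
      have hcard : (P \ g0).card < N := by
        rw [Finset.card_sdiff_of_subset hg0P, hg0c, hn]
        have : K ≤ P.card := hg0c ▸ Finset.card_le_card hg0P
        omega
      obtain ⟨n, g, L, h1, h2, h3, h4, h5, B, h6, h7, h8⟩ := ih _ hcard (P \ g0) rfl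
      obtain ⟨g', hz, hs⟩ : ∃ g' : ℕ → Finset ℕ, g' 0 = g0 ∧ ∀ i, i ≠ 0 → g' i = g (i - 1) :=
        ⟨fun i => if i = 0 then g0 else g (i - 1), if_pos rfl, fun i h => if_neg h⟩
      refine ⟨n + 1, g', L, ?_, ?_, ?_, ?_, ?_, B, h6, h7, h8⟩
      · intro i hi
        by_cases h0 : i = 0
        · rw [h0, hz]
          exact ⟨hg0P, hg0c, hrb⟩
        · rw [hs i h0]
          obtain ⟨e1, e2, e3⟩ := h1 (i - 1) (by omega)
          exact ⟨e1.trans Finset.sdiff_subset, e2, e3⟩
      · intro i hi j hj hij
        have hdis : ∀ k < n, Disjoint g0 (g k) := fun k hk =>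
          Finset.disjoint_of_subset_right (h1 k hk).1 Finset.disjoint_sdiff
        by_cases h0 : i = 0
        · have hj0 : j ≠ 0 := fun h => hij (by rw [h0, h])
          rw [h0, hz, hs j hj0]
          exact hdis _ (by omega)
        · rw [hs i h0]
          by_cases hj0 : j = 0
          · rw [hj0, hz]
            exact (hdis _ (by omega)).symm
          · rw [hs j hj0]
            exact h2 _ (by omega) _ (by omega) (by omega)
      · exact h3.trans Finset.sdiff_subset
      · intro i hi
        by_cases h0 : i = 0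
        · rw [h0, hz]
          exact Finset.disjoint_of_subset_right h3 Finset.disjoint_sdiff
        · rw [hs i h0]
          exact h4 _ (by omega)
      · intro p hp hpL
        by_cases hpg : p ∈ g0
        · exact ⟨0, by omega, by rw [hz]; exact hpg⟩
        · obtain ⟨i, hi, hpi⟩ := h5 p (Finset.mem_sdiff.mpr ⟨hp, hpg⟩) hpL
          exact ⟨i + 1, by omega, by rw [hs _ (by omega)]; simpa using hpi⟩
    · push Not at hR
      refine ⟨0, fun _ => ∅, P, by simp, by simp, subset_rfl, by simp, ?_, (P.image cl).image rep,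
        ?_, ?_, ?_⟩
      · intro p hp h
        exact absurd hp h
      · intro p hp
        obtain ⟨a, ha, rfl⟩ := Finset.mem_image.mp hp
        exact (hrep a ha).1
      · exact lt_of_le_of_lt Finset.card_image_le hR
      · intro p hp
        have ha : cl p ∈ P.image cl := Finset.mem_image_of_mem cl hp
        exact ⟨rep (cl p), Finset.mem_image_of_mem rep ha, (hrep _ ha).2.symm⟩

end Pool.Agent.Helper40.JZ
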