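import Pool.Agent.Helper40.JZ.Stmts
import Pool.Agent.Helper62.DZ.KER
import Pool.Agent.Helper62.DZ.SDL
import Pool.Agent.Helper81.DZ.STA

/-!
Row STC (MP_7a8f48_an): the resonances are small on the average, in the case of a transfer
function.
-/

open Finset Filter MeasureTheory Topology
open scoped ComplexConjugate InnerProductSpace

namespace Pool.Agent.Helper40.JZ

open Pool.Agent.Helper16.AZ (T E Op mm fc Ind)
open Pool.Agent.Helper16.BZ (co Wk EE ff EQ)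
open Pool.Agent.Helper16.MD (MS PB Am RW Rich)
open Pool.Agent.Helper40.DZ (RI UR SK Good3)

/-- **Row STC.** -/
theorem st_STC (hNT : ST_NTF) (hSK : ST_SKN) (_ : ST_LMF) (hMP : ST_MPA) (hDO : ST_DOM)
    (hQL : ST_QLC) : ST_STC := by
  classical
  intro r θ f A w hθ hf hQc d φ c hφ hc δ hδ
  obtain ⟨S, hS⟩ : ∃ S : T (r + 1) → T (r + 1), S = SA θ f := ⟨_, rfl⟩
  have hSc : Continuous S := hS ▸ continuous_SA θ hf
  have hSm : MeasurePreserving S (mm (r + 1)) (mm (r + 1)) := hS ▸ (hMP r θ f hf).1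
  have hKER : Pool.Agent.Helper40.DZ.ST_KER :=
    Pool.Agent.Helper40.DZ.st_KER Pool.Agent.Helper40.DZ.st_SDL
  rw [← hS]
  obtain ⟨V, hV⟩ := (isCompact_range hc).isBounded.exists_norm_le
  have hV' : ∀ y, ‖c y‖ ≤ V := fun y => hV _ ⟨y, rfl⟩
  have hV0 : 0 ≤ V := (norm_nonneg _).trans (hV' 0)
  have hEb : ∀ k k' y, ‖EE S φ c k k' y‖ ^ 2 ≤ V ^ 4 := by
    intro k k' y
    have h6 : ‖EE S φ c k k' y‖ ≤ V ^ 2 := by
      refine (norm_inner_le_norm _ _).trans ?_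
      rw [Pool.Agent.Helper16.BZ.Wk_norm S φ c hφ.2, Pool.Agent.Helper16.BZ.Wk_norm S φ c hφ.2, pow_two]
      exact mul_le_mul (hV' _) (hV' _) (norm_nonneg _) hV0
    calc ‖EE S φ c k k' y‖ ^ 2 ≤ (V ^ 2) ^ 2 := pow_le_pow_left₀ (norm_nonneg _) h6 2
      _ = V ^ 4 := by ring
  have hRI : ∀ k k', RI (EE S φ c k k') := fun k k' =>
    Pool.Agent.Helper40.DZ.EE_RI hSc hSm hφ (Pool.Agent.Helper40.DZ.RI.of_continuous hc) k k'
  have hLp : ∀ k k', MemLp (EE S φ c k k') 2 (mm (r + 1)) := fun k k' => (hRI k k').memLp 2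
  have hint : ∀ k k', ∫ y, ‖EE S φ c k k' y‖ ^ 2 ∂(mm (r + 1)) ≤ V ^ 4 := by
    intro k k'
    have h6 := norm_integral_le_of_norm_le_const (μ := mm (r + 1)) (C := V ^ 4)
      (f := fun y => ‖EE S φ c k k' y‖ ^ 2)
      (Eventually.of_forall fun y => by
        rw [Real.norm_of_nonneg (by positivity)]
        exact hEb k k' y)
    have h7 : (mm (r + 1)).real Set.univ = 1 := by simp
    rw [h7, mul_one] at h6
    exact (le_abs_self _).trans h6
  -- the dominating types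
  have hdom : ∀ q : ℕ, ∃ t₀ : TY r, OK θ f q t₀ ∧ (∀ s, t₀ = some s → (q : ℤ) ∣ s.1) ∧
      (q.Prime → A.natAbs < q → ∀ t : TY r, OK θ f q t → Cn A w q t →
        ∀ G : T (r + 1) → ℂ, MemLp G 2 (mm (r + 1)) → NT q t G ≤ NT q t₀ G) := by
    intro q
    by_cases hq : q.Prime ∧ A.natAbs < q
    · obtain ⟨t₀, h1, h2, h3⟩ := hDO r θ f A w hθ hf hQc q hq.1 hq.2
      exact ⟨t₀, h1, h2, fun _ _ => h3⟩
    · refine ⟨none, trivial, fun s hs => by simp at hs, fun h1 h2 => absurd ⟨h1, h2⟩ hq⟩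
  choose t₀ ht1 ht2 ht3 using hdom
  obtain ⟨Z, hZ⟩ : ∃ Z : ℕ → ℕ → ℝ, Z = fun k k' =>
    ‖∫ y, EE S φ c k k' y ∂(mm (r + 1))‖ ^ 2 := ⟨_, rfl⟩
  have hZK : SK Z := by
    rw [hZ, hS]
    exact (hSK r θ f hf 1 none d φ c le_rfl trivial hφ hc).2
  obtain ⟨N, hN⟩ : ∃ N : ℕ → ℕ → ℕ → ℕ → ℝ, N = fun q _ k k' =>
    if q.Prime then NT q (t₀ q) (EE S φ c k k') else Z k k' := ⟨_, rfl⟩
  have hNK : ∀ q j, SK (N q j) := by
    intro q j
    by_cases hq : q.Prime
    · have : N q j = fun k k' => NT q (t₀ q) (EE S φ c k k') := by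
        funext k k'
        rw [hN]
        exact if_pos hq
      rw [this, hS]
      exact (hSK r θ f hf q (t₀ q) d φ c hq.one_lt.le (ht1 q) hφ hc).1
    · have : N q j = Z := by
        funext k k'
        rw [hN]
        exact if_neg hq
      rw [this]
      exact hZK
  have hZN : ∀ q : ℕ, q.Prime → ∀ (t : TY r), OK θ f q t → ∀ k k',
      Z k k' ≤ NT q t (EE S φ c k k') ∧ NT q t (EE S φ c k k') ≤ V ^ 4 := by
    intro q hq t ht k k'
    obtain ⟨h1, h2, _⟩ := hNT r θ f q t (EE S φ c k k') (EE S φ c k k') hq.one_lt.le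
      hf.measurable ht (hLp k k') (hLp k k')
    rw [hZ]
    exact ⟨h1, h2.trans (hint k k')⟩
  have hN0 : ∀ j k k', N 0 j k k' = Z k k' := by
    intro j k k'
    rw [hN]
    exact if_neg Nat.not_prime_zero
  have hNW : ∀ q j, N q j 0 0 ≤ V ^ 4 := by
    intro q j
    by_cases hq : q.Prime
    · have h1 := (hZN q hq (t₀ q) (ht1 q) 0 0).2
      have : N q j 0 0 = NT q (t₀ q) (EE S φ c 0 0) := by
        rw [hN]
        exact if_pos hq
      rw [this]
      exact h1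
    · have h1 := hZN 2 Nat.prime_two (t₀ 2) (ht1 2) 0 0
      have : N q j 0 0 = Z 0 0 := by
        rw [hN]
        exact if_neg hq
      rw [this]
      exact h1.1.trans h1.2
  have hlim : ∀ j k k', Tendsto (fun q => N q j k k') atTop (𝓝 (N 0 j k k')) := by
    intro j k k'
    rw [hN0, Metric.tendsto_atTop]
    intro ε hε
    obtain ⟨q₀, hq₀⟩ := hQL r θ f hf (EE S φ c k k') (ε / 2) (hLp k k') (by positivity)
    refine ⟨q₀, fun q hq => ?_⟩
    by_cases hqp : q.Prime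
    · have h1 := hq₀ q hq hqp (t₀ q) (ht1 q) (ht2 q)
      have h2 := (hZN q hqp (t₀ q) (ht1 q) k k').1
      have : N q j k k' = NT q (t₀ q) (EE S φ c k k') := by
        rw [hN]
        exact if_pos hqp
      rw [this, Real.dist_eq, abs_of_nonneg (by linarith)]
      have h3 : Z k k' = ‖∫ y, EE S φ c k k' y ∂(mm (r + 1))‖ ^ 2 := by rw [hZ]
      rw [← h3] at h1
      linarith
    · have : N q j k k' = Z k k' := by
        rw [hN]
        exact if_neg hqp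
      rw [this, dist_self]
      exact hε
  obtain ⟨q₀, hq₀⟩ := Pool.Agent.Helper40.DZ.sta_abs hKER 1 N hNK (V ^ 4) hNW hlim (δ / 2)
    (by positivity)
  filter_upwards [Pool.Agent.Helper40.DZ.sta_card ((1 + 1) * V ^ 4) (δ / 2) (by positivity),
    eventually_ge_atTop (q₀ + A.natAbs)] with i hi hiq hrich
  intro t ht
  have hB := hi hrich
  have hP' : ∀ p ∈ PB 1 i, q₀ + A.natAbs < p ∧ p.Prime := by
    intro p hp
    unfold PB at hp
    rw [Finset.mem_filter, Finset.mem_Ioc] at hp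
    refine ⟨?_, hp.2.1⟩
    have : i < 2 ^ i := Nat.lt_two_pow_self
    omega
  have hP : ∀ p ∈ PB 1 i, q₀ ≤ p ∧ p.Prime := fun p hp => ⟨by have := (hP' p hp).1; omega,
    (hP' p hp).2⟩
  obtain ⟨t₁, ht₁⟩ := eventually_atTop.1 (hq₀ _ hP)
  refine ⟨t₁, fun H hH => ?_⟩
  have h6 := ht₁ H hH
  have h7 : ∑ h ∈ range H, ∑ h' ∈ range H, ∑ p ∈ PB 1 i, ∑ q ∈ (PB 1 i).erase p,
      (NT q (t p q) (EE S φ c (p * h) (p * h')) -
        ‖∫ y, EE S φ c (p * h) (p * h') y ∂(mm (r + 1))‖ ^ 2) ≤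
      (δ / 2 * ((PB 1 i).card : ℝ) ^ 2 + (1 : ℕ) * V ^ 4 * (PB 1 i).card) * (H : ℝ) ^ 2 := by
    refine le_trans ?_ h6
    refine Finset.sum_le_sum fun h _ => Finset.sum_le_sum fun h' _ =>
      Finset.sum_le_sum fun p _ => Finset.sum_le_sum fun q hq => ?_
    have hqP := hP' q (Finset.mem_of_mem_erase hq)
    rw [Finset.sum_range_one, hN0]
    have e1 : N q 0 (p * h) (p * h') = NT q (t₀ q) (EE S φ c (p * h) (p * h')) := by
      rw [hN]
      exact if_pos hqP.2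
    have e2 := ht3 q hqP.2 (by have := hqP.1; omega) (t p q) (ht p q).1 (ht p q).2 _
      (hLp (p * h) (p * h'))
    have e3 : Z (p * h) (p * h') = ‖∫ y, EE S φ c (p * h) (p * h') y ∂(mm (r + 1))‖ ^ 2 := by
      rw [hZ]
    rw [e1, e3]
    linarith
  have h8 : ∑ h ∈ range H, ∑ h' ∈ range H, ∑ p ∈ PB 1 i,
      ∫ y, ‖EE S φ c (p * h) (p * h') y‖ ^ 2 ∂(mm (r + 1)) ≤
      V ^ 4 * (PB 1 i).card * (H : ℝ) ^ 2 := by
    calc _ ≤ ∑ h ∈ range H, ∑ h' ∈ range H, ∑ p ∈ PB 1 i, V ^ 4 :=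
          Finset.sum_le_sum fun h _ => Finset.sum_le_sum fun h' _ =>
            Finset.sum_le_sum fun p _ => hint _ _
      _ = V ^ 4 * (PB 1 i).card * (H : ℝ) ^ 2 := by
          simp only [Finset.sum_const, nsmul_eq_mul, Finset.card_range]
          ring
  rw [Nat.cast_one] at h7
  simp only [Finset.sum_add_distrib]
  have h9 : ((1 + 1) * V ^ 4) * (PB 1 i).card ≤ δ / 2 * ((PB 1 i).card : ℝ) ^ 2 := by
    have := mul_le_mul_of_nonneg_right hB (Nat.cast_nonneg (PB 1 i).card : (0 : ℝ) ≤ _)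
    calc _ ≤ _ := this
      _ = _ := by ring
  have h10 : (0 : ℝ) ≤ (H : ℝ) ^ 2 := by positivity
  nlinarith [mul_le_mul_of_nonneg_right h9 h10]

end Pool.Agent.Helper40.JZ
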